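import Mathlib
import Pool.Agent.H964.CW.Stm

/-! # Project CW (helper964): HHg, sums with the weight function of the ages, explicit in `g`

Variant of `Pool/Agent/H71/QC/HH.lean`. -/

set_option autoImplicit false

open MeasureTheory ProbabilityTheory Filter Finset

namespace Pool.Agent.H280.CW

open Pool.Agent.H964.QC Pool.Agent.H964.CW

/-- one step of the tail sum -/
lemma step1 {g x : ℝ} (hg : 0 < g) (hx : 1 ≤ x) :
    g * (x + 1) ^ (-(1 + g)) ≤ x ^ (-g) - (x + 1) ^ (-g) := by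
  have hx0 : 0 < x := by linarith
  have hx1 : 0 < x + 1 := by linarith
  have h1 : 1 / (x + 1) ≤ Real.log ((x + 1) / x) := by
    have h2 := Real.one_sub_inv_le_log_of_pos (show 0 < (x + 1) / x by positivity)
    have h3 : 1 - ((x + 1) / x)⁻¹ = 1 / (x + 1) := by
      field_simp
      ring
    rw [h3] at h2
    exact h2
  have h2 : 1 + g / (x + 1) ≤ ((x + 1) / x) ^ g := by
    rw [Real.rpow_def_of_pos (by positivity)]
    have h3 := Real.add_one_le_exp (Real.log ((x + 1) / x) * g)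
    have h4 := mul_le_mul_of_nonneg_right h1 hg.le
    have h5 : 1 / (x + 1) * g = g / (x + 1) := by ring
    linarith
  have h3 : (x + 1) ^ (-(1 + g)) = (x + 1) ^ (-g) / (x + 1) := by
    rw [show -(1 + g) = -g - 1 by ring, Real.rpow_sub_one hx1.ne']
  have h4 : x ^ (-g) = (x + 1) ^ (-g) * ((x + 1) / x) ^ g := by
    rw [Real.div_rpow hx1.le hx0.le, Real.rpow_neg hx1.le, Real.rpow_neg hx0.le]
    have : (x + 1) ^ g ≠ 0 := (Real.rpow_pos_of_pos hx1 g).ne'
    field_simp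
  rw [h3, h4]
  have h5 : 0 < (x + 1) ^ (-g) := Real.rpow_pos_of_pos hx1 _
  have h6 := mul_le_mul_of_nonneg_left h2 h5.le
  have h7 : (x + 1) ^ (-g) * (1 + g / (x + 1)) =
    (x + 1) ^ (-g) + g * ((x + 1) ^ (-g) / (x + 1)) := by ring
  linarith

/-- the tail sum -/
lemma tail {g : ℝ} (hg : 0 < g) (a T : ℕ) :
    g * ∑ k ∈ Finset.Ioc a T, ((k : ℝ) + 1) ^ (-(1 + g)) ≤ ((a : ℝ) + 1) ^ (-g) := by
  rcases le_total T a with h | h
  · rw [Finset.Ioc_eq_empty (by omega), Finset.sum_empty, mul_zero]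
    positivity
  · have h1 : g * ∑ k ∈ Finset.Ioc a T, ((k : ℝ) + 1) ^ (-(1 + g)) ≤
        ((a : ℝ) + 1) ^ (-g) - ((T : ℝ) + 1) ^ (-g) := by
      induction T, h using Nat.le_induction with
      | base => simp
      | succ n hn ih =>
        rw [Finset.sum_Ioc_succ_top (by omega), mul_add]
        have h2 := step1 hg (show (1 : ℝ) ≤ (n : ℝ) + 1 by
          have : (0 : ℝ) ≤ n := Nat.cast_nonneg n
          linarith)
        push_cast
        linarith
    have h2 : 0 ≤ ((T : ℝ) + 1) ^ (-g) := by positivity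
    linarith

/-- one step of the head sum -/
lemma step2 {g x : ℝ} (hg : 0 < g) (hg1 : g ≤ 1) (hx : 1 ≤ x) :
    (1 - g) * (x + 1) ^ (-g) ≤ (x + 1) ^ (1 - g) - x ^ (1 - g) := by
  have hx0 : 0 < x := by linarith
  have hx1 : 0 < x + 1 := by linarith
  have h1 : ((x + 1) / x) ^ g ≤ 1 + g * (1 / x) := by
    have h2 := rpow_one_add_le_one_add_mul_self (s := 1 / x) (p := g) (by
      have : 0 < 1 / x := by positivity
      linarith) hg.le hg1
    have h3 : 1 + 1 / x = (x + 1) / x := by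
      field_simp
    rw [h3] at h2
    exact h2
  have h3 : (x + 1) ^ (1 - g) = (x + 1) ^ (-g) * (x + 1) := by
    rw [show 1 - g = -g + 1 by ring, Real.rpow_add_one hx1.ne']
  have h4 : x ^ (1 - g) = (x + 1) ^ (-g) * (x * ((x + 1) / x) ^ g) := by
    rw [show 1 - g = -g + 1 by ring, Real.rpow_add_one hx0.ne', Real.div_rpow hx1.le hx0.le,
      Real.rpow_neg hx1.le, Real.rpow_neg hx0.le]
    have : (x + 1) ^ g ≠ 0 := (Real.rpow_pos_of_pos hx1 g).ne'
    field_simp
  have h5 : 0 < (x + 1) ^ (-g) := Real.rpow_pos_of_pos hx1 _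
  have h6 : x * ((x + 1) / x) ^ g ≤ x + g := by
    have h7 := mul_le_mul_of_nonneg_left h1 hx0.le
    have h8 : x * (1 + g * (1 / x)) = x + g := by field_simp
    linarith
  have h7 := mul_le_mul_of_nonneg_left h6 h5.le
  rw [h3, h4]
  have h8 : (1 - g) * (x + 1) ^ (-g) = (x + 1) ^ (-g) * (x + 1) - (x + 1) ^ (-g) * (x + g) := by
    ring
  linarith

/-- the head sum -/
lemma head {g : ℝ} (hg : 0 < g) (hg1 : g ≤ 1) (a : ℕ) :
    (1 - g) * ∑ k ∈ Finset.Icc 1 a, ((k : ℝ) + 1) ^ (-g) ≤ ((a : ℝ) + 1) ^ (1 - g) := by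
  induction a with
  | zero =>
    simp
  | succ n ih =>
    rw [Finset.sum_Icc_succ_top (by omega), mul_add]
    have h2 := step2 hg hg1 (show (1 : ℝ) ≤ (n : ℝ) + 1 by
      have : (0 : ℝ) ≤ n := Nat.cast_nonneg n
      linarith)
    push_cast
    linarith

/-- the harmonic sum -/
lemma harm (a T : ℕ) : ∑ k ∈ Finset.Icc 1 T, 1 / ((a : ℝ) + k) ≤
    2 * Real.log (1 + (T : ℝ) / ((a : ℝ) + 1)) := by
  have ha : (0 : ℝ) < (a : ℝ) + 1 := by positivity
  induction T with
  | zero => simp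
  | succ n ih =>
    rw [Finset.sum_Icc_succ_top (by omega)]
    have h0 : (0 : ℝ) ≤ n := Nat.cast_nonneg n
    have ha0 : (0 : ℝ) ≤ a := Nat.cast_nonneg a
    obtain ⟨y, hy⟩ : ∃ y : ℝ, y = (a : ℝ) + 1 + n := ⟨_, rfl⟩
    have hy1 : 1 ≤ y := by rw [hy]; linarith
    have hy0 : 0 < y := by linarith
    have e1 : 1 + (n : ℝ) / ((a : ℝ) + 1) = y / ((a : ℝ) + 1) := by
      rw [hy]; field_simp
    have e2 : 1 + ((n + 1 : ℕ) : ℝ) / ((a : ℝ) + 1) = (y + 1) / ((a : ℝ) + 1) := by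
      rw [hy]; push_cast; field_simp; ring
    have e3 : (a : ℝ) + ((n + 1 : ℕ) : ℝ) = y := by rw [hy]; push_cast; ring
    rw [e2, e3]
    rw [e1] at ih
    have h1 : 1 / (y + 1) ≤ Real.log ((y + 1) / y) := by
      have h2 := Real.one_sub_inv_le_log_of_pos (show 0 < (y + 1) / y by positivity)
      have h3 : 1 - ((y + 1) / y)⁻¹ = 1 / (y + 1) := by
        field_simp
        ring
      rw [h3] at h2
      exact h2
    have h2 : Real.log ((y + 1) / ((a : ℝ) + 1)) = Real.log (y / ((a : ℝ) + 1)) +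
        Real.log ((y + 1) / y) := by
      rw [← Real.log_mul (by positivity) (by positivity)]
      congr 1
      field_simp
    have h3 : 1 / y ≤ 2 * (1 / (y + 1)) := by
      rw [mul_one_div, div_le_div_iff₀ hy0 (by positivity)]
      linarith
    rw [h2]
    linarith

/-- `p` -/
noncomputable def pw (g : ℝ) (t a : ℕ) : ℝ := (((t : ℝ) + 1) / ((a : ℝ) + 1)) ^ g

lemma pw_pos (g : ℝ) (t a : ℕ) : 0 < pw g t a := by unfold pw; positivity

lemma hh_eq (g : ℝ) (t a : ℕ) : hh g t a = max 1 (pw g t a) := rfl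

lemma one_le_hh (g : ℝ) (t a : ℕ) : 1 ≤ hh g t a := le_max_left _ _

lemma pw_le_hh (g : ℝ) (t a : ℕ) : pw g t a ≤ hh g t a := le_max_right _ _

lemma hh_le (g : ℝ) (t a : ℕ) : hh g t a ≤ 1 + pw g t a := by
  rw [hh_eq]
  have := (pw_pos g t a).le
  exact max_le (by linarith) (by linarith)

lemma pw_eq (g : ℝ) (t a : ℕ) : pw g t a = ((t : ℝ) + 1) ^ g * ((a : ℝ) + 1) ^ (-g) := by
  unfold pw
  rw [Real.div_rpow (by positivity) (by positivity), Real.rpow_neg (by positivity), div_eq_mul_inv]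

/-- the sum of the powers -/
lemma pw_sum {g : ℝ} (hg : 0 < g) (hg1 : g ≤ 1 / 4) (t T a : ℕ) :
    ∑ k ∈ Finset.Icc 1 T, pw g t k / ((a : ℝ) + k) ≤ (3 + 2 / g) * pw g t a := by
  have hA : 0 < ((t : ℝ) + 1) ^ g := by positivity
  have ha1 : (0 : ℝ) < (a : ℝ) + 1 := by positivity
  have hg' : 0 < 1 - g := by linarith
  -- head
  have h1 : ∑ k ∈ (Finset.Icc 1 T).filter (fun k => k ≤ a), pw g t k / ((a : ℝ) + k) ≤
      3 * pw g t a := by
    have h2 : ∀ k ∈ (Finset.Icc 1 T).filter (fun k => k ≤ a), pw g t k / ((a : ℝ) + k) ≤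
        2 * ((t : ℝ) + 1) ^ g / ((a : ℝ) + 1) * ((k : ℝ) + 1) ^ (-g) := by
      intro k hk
      rw [mem_filter, mem_Icc] at hk
      have hk1 : (1 : ℝ) ≤ k := by exact_mod_cast hk.1.1
      have ha1' : (1 : ℝ) ≤ a := by exact_mod_cast hk.1.1.trans hk.2
      rw [pw_eq, div_eq_mul_inv, mul_assoc, mul_comm (((k : ℝ) + 1) ^ (-g)), ← mul_assoc]
      refine mul_le_mul_of_nonneg_right ?_ (by positivity)
      rw [← div_eq_mul_inv, div_le_div_iff₀ (by linarith) (by linarith)]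
      nlinarith
    refine (Finset.sum_le_sum h2).trans ?_
    rw [← Finset.mul_sum]
    have h3 : ∑ k ∈ (Finset.Icc 1 T).filter (fun k => k ≤ a), ((k : ℝ) + 1) ^ (-g) ≤
        ∑ k ∈ Finset.Icc 1 a, ((k : ℝ) + 1) ^ (-g) := by
      refine Finset.sum_le_sum_of_subset_of_nonneg (fun k hk => ?_) (fun k _ _ => by positivity)
      rw [mem_filter, mem_Icc] at hk
      rw [mem_Icc]
      exact ⟨hk.1.1, hk.2⟩
    have h4 := head hg (by linarith) a
    have h5 : ∑ k ∈ Finset.Icc 1 a, ((k : ℝ) + 1) ^ (-g) ≤ 3 / 2 * ((a : ℝ) + 1) ^ (1 - g) := by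
      have h6 : 0 ≤ ∑ k ∈ Finset.Icc 1 a, ((k : ℝ) + 1) ^ (-g) :=
        Finset.sum_nonneg fun k _ => by positivity
      nlinarith
    have h6 := mul_le_mul_of_nonneg_left (h3.trans h5)
      (show 0 ≤ 2 * ((t : ℝ) + 1) ^ g / ((a : ℝ) + 1) by positivity)
    refine h6.trans (le_of_eq ?_)
    rw [pw_eq, show 1 - g = -g + 1 by ring, Real.rpow_add_one ha1.ne']
    field_simp
  have h2 : ∑ k ∈ (Finset.Icc 1 T).filter (fun k => ¬ k ≤ a), pw g t k / ((a : ℝ) + k) ≤
      2 / g * pw g t a := by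
    have h2 : ∀ k ∈ (Finset.Icc 1 T).filter (fun k => ¬ k ≤ a), pw g t k / ((a : ℝ) + k) ≤
        2 * ((t : ℝ) + 1) ^ g * ((k : ℝ) + 1) ^ (-(1 + g)) := by
      intro k hk
      rw [mem_filter, mem_Icc] at hk
      have hk1 : (1 : ℝ) ≤ k := by exact_mod_cast hk.1.1
      have ha0 : (0 : ℝ) ≤ a := Nat.cast_nonneg a
      rw [show -(1 + g) = -g - 1 by ring, Real.rpow_sub_one (by linarith), pw_eq]
      have h3 : 0 < ((k : ℝ) + 1) ^ (-g) := by positivity
      rw [← mul_div_assoc, div_le_div_iff₀ (by linarith) (by linarith)]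
      have h4 : (0 : ℝ) < ((t : ℝ) + 1) ^ g * ((k : ℝ) + 1) ^ (-g) := by positivity
      nlinarith
    refine (Finset.sum_le_sum h2).trans ?_
    rw [← Finset.mul_sum]
    have h3 : ∑ k ∈ (Finset.Icc 1 T).filter (fun k => ¬ k ≤ a), ((k : ℝ) + 1) ^ (-(1 + g)) ≤
        ∑ k ∈ Finset.Ioc a T, ((k : ℝ) + 1) ^ (-(1 + g)) := by
      refine Finset.sum_le_sum_of_subset_of_nonneg (fun k hk => ?_) (fun k _ _ => by positivity)
      rw [mem_filter, mem_Icc] at hk
      rw [Finset.mem_Ioc]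
      exact ⟨by omega, hk.1.2⟩
    have h4 := tail hg a T
    have h5 : ∑ k ∈ Finset.Ioc a T, ((k : ℝ) + 1) ^ (-(1 + g)) ≤ ((a : ℝ) + 1) ^ (-g) / g := by
      rw [le_div_iff₀ hg, mul_comm]
      exact h4
    have h6 := mul_le_mul_of_nonneg_left (h3.trans h5)
      (show 0 ≤ 2 * ((t : ℝ) + 1) ^ g by positivity)
    refine h6.trans (le_of_eq ?_)
    rw [pw_eq]
    field_simp
  rw [← Finset.sum_filter_add_sum_filter_not (Finset.Icc 1 T) (fun k => k ≤ a)]
  linarith

theorem t_HHg : S_HHg := by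
  refine ⟨21, by norm_num, ?_⟩
  intro g hg hg1
  refine ⟨?_, ?_, ?_⟩
  · intro t a b hab
    rw [hh_eq, hh_eq]
    refine max_le_max le_rfl ?_
    unfold pw
    refine Real.rpow_le_rpow (by positivity) ?_ hg.le
    have : (a : ℝ) ≤ b := by exact_mod_cast hab
    exact div_le_div_of_nonneg_left (by positivity) (by positivity) (by linarith)
  · intro t T a ht
    have ht0 : (0 : ℝ) < t := by exact_mod_cast ht
    have ha1 : (0 : ℝ) < (a : ℝ) + 1 := by positivity
    have hT0 : (0 : ℝ) ≤ T := Nat.cast_nonneg T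
    obtain ⟨l, hl⟩ : ∃ l, l = Real.log (1 + (T : ℝ) / t) := ⟨_, rfl⟩
    have hl0 : 0 ≤ l := by
      rw [hl]
      exact Real.log_nonneg (by
        have : 0 ≤ (T : ℝ) / t := by positivity
        linarith)
    rw [← hl]
    have h1 : ∑ k ∈ Finset.Icc 1 T, hh g t k / ((a : ℝ) + k) ≤
        ∑ k ∈ Finset.Icc 1 T, 1 / ((a : ℝ) + k) + ∑ k ∈ Finset.Icc 1 T, pw g t k / ((a : ℝ) + k) := by
      rw [← Finset.sum_add_distrib]
      refine Finset.sum_le_sum fun k hk => ?_
      rw [← add_div]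
      have hk1 : (1 : ℝ) ≤ k := by exact_mod_cast (mem_Icc.1 hk).1
      exact div_le_div_of_nonneg_right (hh_le g t k) (by positivity)
    have h2 := pw_sum hg hg1 t T a
    have h3 := harm a T
    have h4 : Real.log (1 + (T : ℝ) / ((a : ℝ) + 1)) ≤ l + 1 / g * (1 + pw g t a) := by
      have e1 : 1 + (T : ℝ) / ((a : ℝ) + 1) ≤ (1 + (T : ℝ) / t) * (1 + (t : ℝ) / ((a : ℝ) + 1)) := by
        have : (1 + (T : ℝ) / t) * (1 + (t : ℝ) / ((a : ℝ) + 1)) =
          1 + (T : ℝ) / ((a : ℝ) + 1) + ((T : ℝ) / t + (t : ℝ) / ((a : ℝ) + 1)) := by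
          field_simp
          ring
        rw [this]
        have : 0 ≤ (T : ℝ) / t + (t : ℝ) / ((a : ℝ) + 1) := by positivity
        linarith
      have e2 := Real.log_le_log (by positivity) e1
      rw [Real.log_mul (by positivity) (by positivity), ← hl] at e2
      have e3 : Real.log (1 + (t : ℝ) / ((a : ℝ) + 1)) ≤ 1 / g * (1 + pw g t a) := by
        have f1 : Real.log (1 + (t : ℝ) / ((a : ℝ) + 1)) ≤
            (1 + (t : ℝ) / ((a : ℝ) + 1)) ^ g / g := Real.log_le_rpow_div (by positivity) hg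
        have f2 : (1 + (t : ℝ) / ((a : ℝ) + 1)) ^ g ≤ 1 + pw g t a := by
          have f3 := Real.rpow_add_le_add_rpow (p := g) (a := 1)
            (b := (t : ℝ) / ((a : ℝ) + 1)) zero_le_one (by positivity) hg.le (by linarith)
          rw [Real.one_rpow] at f3
          refine f3.trans ?_
          have f4 : ((t : ℝ) / ((a : ℝ) + 1)) ^ g ≤ pw g t a := by
            unfold pw
            refine Real.rpow_le_rpow (by positivity) ?_ hg.le
            exact div_le_div_of_nonneg_right (by linarith) ha1.le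
          linarith
        refine f1.trans ?_
        rw [div_eq_mul_one_div, mul_comm]
        exact mul_le_mul_of_nonneg_left f2 (by positivity)
      linarith
    have h5 := one_le_hh g t a
    have h6 := pw_le_hh g t a
    obtain ⟨H, hH⟩ : ∃ H, H = hh g t a := ⟨_, rfl⟩
    obtain ⟨p, hp⟩ : ∃ p, p = pw g t a := ⟨_, rfl⟩
    obtain ⟨i, hi⟩ : ∃ i, i = 1 / g := ⟨_, rfl⟩
    have hi0 : 0 < i := by rw [hi]; positivity
    have hi1 : 1 ≤ i := by
      rw [hi, le_div_iff₀ hg]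
      linarith
    have e2 : 2 / g = 2 * i := by rw [hi]; ring
    rw [← hH] at h5 h6 ⊢
    rw [← hp] at h2 h4 h6
    rw [← hi] at h4 ⊢
    rw [e2] at h2
    have h7 : ∑ k ∈ Finset.Icc 1 T, hh g t k / ((a : ℝ) + k) ≤
        2 * (l + i * (1 + H)) + (3 + 2 * i) * H := by
      have g1 : i * (1 + p) ≤ i * (1 + H) := mul_le_mul_of_nonneg_left (by linarith) hi0.le
      have g2 : (3 + 2 * i) * p ≤ (3 + 2 * i) * H := mul_le_mul_of_nonneg_left h6 (by positivity)
      linarith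
    refine h7.trans ?_
    have g1 : l ≤ l * H := le_mul_of_one_le_right hl0 h5
    have g2 : i ≤ i * H := le_mul_of_one_le_right hi0.le h5
    have g3 : 0 ≤ l * H := by positivity
    have g4 : 0 ≤ i * H := by positivity
    have g5 : H ≤ i * H := le_mul_of_one_le_left (by linarith) hi1
    have e5 : 21 * (i + l) * H = 21 * (i * H) + 21 * (l * H) := by ring
    have e6 : 2 * (l + i * (1 + H)) + (3 + 2 * i) * H = 2 * l + 2 * i + 4 * (i * H) + 3 * H := by ring
    rw [e5, e6]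
    linarith
  · intro t T a ht
    have ha1 : (0 : ℝ) < (a : ℝ) + 1 := by positivity
    have ha0 : (0 : ℝ) ≤ a := Nat.cast_nonneg a
    have h1 : ∑ k ∈ Finset.Icc 1 T, 1 / ((k : ℝ) * ((a : ℝ) + k)) ≤
        ((a : ℝ) + 1) ^ (-g) * (4 * 4) := by
      have h2 : ∀ k ∈ Finset.Icc 1 T, 1 / ((k : ℝ) * ((a : ℝ) + k)) ≤
          ((a : ℝ) + 1) ^ (-g) * (4 * ((k : ℝ) + 1) ^ (-(1 + (1 / 4 : ℝ)))) := by
        intro k hk
        have hk1 : (1 : ℝ) ≤ k := by exact_mod_cast (mem_Icc.1 hk).1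
        have hk0 : (0 : ℝ) < k := by linarith
        have e1 : ((a : ℝ) + 1) ^ g * (k : ℝ) ^ (1 - g) ≤ (a : ℝ) + k := by
          have e2 : (a : ℝ) + k = ((a : ℝ) + k) ^ g * ((a : ℝ) + k) ^ (1 - g) := by
            rw [← Real.rpow_add (by linarith), show g + (1 - g) = 1 by ring, Real.rpow_one]
          rw [e2]
          refine mul_le_mul ?_ ?_ (by positivity) (by positivity)
          · exact Real.rpow_le_rpow ha1.le (by linarith) hg.le
          · exact Real.rpow_le_rpow hk0.le (by linarith) (by linarith)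
        have e3 : 1 / ((k : ℝ) * ((a : ℝ) + k)) ≤
            1 / ((k : ℝ) * (((a : ℝ) + 1) ^ g * (k : ℝ) ^ (1 - g))) :=
          one_div_le_one_div_of_le (by positivity) (mul_le_mul_of_nonneg_left e1 hk0.le)
        have e4 : (k : ℝ) * (((a : ℝ) + 1) ^ g * (k : ℝ) ^ (1 - g)) =
            ((a : ℝ) + 1) ^ g * (k : ℝ) ^ (2 - g) := by
          rw [show 2 - g = 1 + (1 - g) by ring, Real.rpow_add hk0, Real.rpow_one]
          ring
        rw [e4] at e3
        have e5 : 1 / (((a : ℝ) + 1) ^ g * (k : ℝ) ^ (2 - g)) =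
            ((a : ℝ) + 1) ^ (-g) * (k : ℝ) ^ (-(2 - g)) := by
          rw [Real.rpow_neg ha1.le, Real.rpow_neg hk0.le, one_div, mul_inv]
        rw [e5] at e3
        refine e3.trans (mul_le_mul_of_nonneg_left ?_ (by positivity))
        have e6 : (k : ℝ) ^ (-(2 - g)) ≤ (k : ℝ) ^ (-(1 + (1 / 4 : ℝ))) :=
          Real.rpow_le_rpow_of_exponent_le hk1 (by linarith)
        refine e6.trans ?_
        -- `(k+1) ≤ 2k`
        have e7 : ((k : ℝ) + 1) ^ (1 + (1 / 4 : ℝ)) ≤ 4 * (k : ℝ) ^ (1 + (1 / 4 : ℝ)) := by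
          have e8 : ((k : ℝ) + 1) ^ (1 + (1 / 4 : ℝ)) ≤ (2 * k) ^ (1 + (1 / 4 : ℝ)) :=
            Real.rpow_le_rpow (by linarith) (by linarith) (by norm_num)
          rw [Real.mul_rpow (by norm_num) hk0.le] at e8
          have e9 : (2 : ℝ) ^ (1 + (1 / 4 : ℝ)) ≤ 4 := by
            have : (2 : ℝ) ^ (1 + (1 / 4 : ℝ)) ≤ (2 : ℝ) ^ (2 : ℝ) :=
              Real.rpow_le_rpow_of_exponent_le (by norm_num) (by norm_num)
            refine this.trans (le_of_eq ?_)
            rw [Real.rpow_two]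
            norm_num
          exact e8.trans (mul_le_mul_of_nonneg_right e9 (by positivity))
        rw [Real.rpow_neg hk0.le, Real.rpow_neg (by linarith)]
        have f1 : 0 < ((k : ℝ) + 1) ^ (1 + (1 / 4 : ℝ)) := by positivity
        have f2 : 0 < (k : ℝ) ^ (1 + (1 / 4 : ℝ)) := by positivity
        rw [inv_eq_one_div, ← div_eq_mul_inv, div_le_div_iff₀ f2 f1]
        linarith
      refine (Finset.sum_le_sum h2).trans ?_
      rw [← Finset.mul_sum, ← Finset.mul_sum]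
      refine mul_le_mul_of_nonneg_left (mul_le_mul_of_nonneg_left ?_ (by norm_num)) (by positivity)
      have h3 := tail (g := 1 / 4) (by norm_num) 0 T
      have h4 : Finset.Icc 1 T = Finset.Ioc 0 T := by
        ext k
        rw [mem_Icc, Finset.mem_Ioc]
        omega
      rw [h4]
      have h5 : (((0 : ℕ) : ℝ) + 1) ^ (-(1 / 4 : ℝ)) = 1 := by
        have : ((0 : ℕ) : ℝ) + 1 = 1 := by norm_num
        rw [this, Real.one_rpow]
      rw [h5] at h3
      linarith
    have h2 : hh g t 0 = ((t : ℝ) + 1) ^ g := by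
      rw [hh_eq, pw_eq]
      have : ((0 : ℕ) : ℝ) + 1 = 1 := by norm_num
      rw [this, Real.one_rpow, mul_one]
      exact max_eq_right (Real.one_le_rpow (by
        have : (0 : ℝ) ≤ t := Nat.cast_nonneg t
        linarith) hg.le)
    rw [h2]
    have h3 := mul_le_mul_of_nonneg_left h1 (show 0 ≤ ((t : ℝ) + 1) ^ g by positivity)
    refine h3.trans ?_
    have h4 : ((t : ℝ) + 1) ^ g * (((a : ℝ) + 1) ^ (-g) * (4 * 4)) = 16 * pw g t a := by
      rw [pw_eq]
      ring
    rw [h4]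
    have h5 := pw_le_hh g t a
    have h6 := one_le_hh g t a
    linarith

end Pool.Agent.H280.CW
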